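import Pool.Agent.NH50.SPH.Final
import Pool.Agent.NH50.SPH.Calc2
import Pool.Agent.NH50.SPH.Cut
import Pool.Agent.NH50.SPH.Push
import Pool.Agent.NH50.SPH.Lift
import Pool.Agent.NH50.SPH.Slow
import Pool.Agent.NH50.SPH.Disp
import Pool.Agent.NH50.SPH.Sub
import Pool.Agent.NH50.SPH.Near
import Pool.Agent.NH50.SPH.Path
import Pool.Agent.NH50.SPH.Dyn
import Pool.Agent.NH50.SPH.KC
import Pool.Agent.NH50.SPH.Low

/-!
# The conjugate-product length of sphere homeomorphisms is three

`Sphere2` is the unit sphere of Euclidean three-space. `IdComponent X` is the path component of the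
identity, in the compact-open topology, of the group `X ≃ₜ X` of homeomorphisms of `X` (the product
is composition). `P X n` says that for all nontrivial `A`, `B` in the identity component, `B` is a
product of exactly `n` conjugates of `A`. The least `n ≥ 1` with `P Sphere2 n` is `3`.
-/

set_option autoImplicit false

namespace Pool.Agent.Results.MP_c6d336_gt.ThreeConjugates

/-- The 2-sphere: the unit sphere of Euclidean three-space. -/
def Sphere2 : Set (EuclideanSpace ℝ (Fin 3)) := Metric.sphere 0 1

/-- The path component of the identity in the homeomorphism group of `X`: `f` belongs to it if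
there is a path `h : [0,1] → Homeo(X)` from the identity to `f` which is continuous for the
compact-open topology (the topology of `C(X, X)`). -/
def IdComponent (X : Type) [TopologicalSpace X] : Set (X ≃ₜ X) :=
  {f | ∃ h : unitInterval → (X ≃ₜ X),
    Continuous (fun t => (⟨h t, (h t).continuous⟩ : C(X, X))) ∧ h 0 = 1 ∧ h 1 = f}

/-- `P X n`: for all `A ≠ id`, `B ≠ id` in the identity component there are homeomorphisms
`H₀, …, Hₙ₋₁` of `X` with `B = (H₀ A H₀⁻¹) ⋯ (Hₙ₋₁ A Hₙ₋₁⁻¹)`. -/
def P (X : Type) [TopologicalSpace X] (n : ℕ) : Prop :=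
  ∀ A ∈ IdComponent X, ∀ B ∈ IdComponent X, A ≠ 1 → B ≠ 1 →
    ∃ H : Fin n → (X ≃ₜ X), B = (List.ofFn fun i => H i * A * (H i)⁻¹).prod

open Pool.Agent.NH50.SPH in
/-- The least `n ≥ 1` with `P Sphere2 n` is `3`. -/
theorem result : IsLeast {n : ℕ | 1 ≤ n ∧ P Sphere2 n} 3 := by
  have hpp : St_PP := pp (push bump)
  have hm : St_mul := mulQ hpp
  have hn : St_near := near strict bump hm lift (disp slow) sub
  have hp : St_path := path hn hm hpp
  have hk : St_KC := kc strict (push bump) hm (nf1 hpp hm) (nf2 hpp hm) dyn
  exact final hp hk low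

end Pool.Agent.Results.MP_c6d336_gt.ThreeConjugates
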